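import Pool.Agent.helper21.OE.SpecC

/-! # Row oe:PRX (MP_2e0e07_nt) -/

set_option autoImplicit false

namespace Pool.Agent.OE

open MvPolynomial Matrix

theorem PRX_star {d t : ℤ} (ℓ : ℕ) (z : Oz d t) (h : ((ℓ : ℕ) : Oz d t) ∣ star z) :
    ((ℓ : ℕ) : Oz d t) ∣ z := by
  obtain ⟨w, hw⟩ := h
  refine ⟨star w, ?_⟩
  have h1 : star (star z) = star (((ℓ : ℕ) : Oz d t) * w) := by rw [hw]
  rw [star_star] at h1
  rw [h1, star_mul', star_natCast]

theorem PRX (hREP : REP_stmt) : PRX_stmt := by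
  intro d t ℓ hℓ
  have hex : ∀ x : Fin ℓ × Fin ℓ, ∃ y : Fin ℓ × Fin ℓ,
      ((ℓ : ℕ) : Oz d t) ∣ star (rep d t x) - rep d t y := fun x =>
    (hREP d t ℓ hℓ).1 (star (rep d t x))
  choose σ hσ using hex
  have hinj : Function.Injective σ := by
    intro x x' hxx
    apply (hREP d t ℓ hℓ).2
    have h1 := hσ x
    have h2 := hσ x'
    rw [← hxx] at h2
    have h3 := dvd_sub h1 h2
    apply PRX_star
    have e : star (rep d t x - rep d t x') =
        star (rep d t x) - rep d t (σ x) - (star (rep d t x') - rep d t (σ x)) := by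
      rw [star_sub]
      ring
    rw [e]
    exact h3
  exact ⟨Equiv.ofBijective σ (Finite.injective_iff_bijective.1 hinj), fun x => hσ x⟩

end Pool.Agent.OE
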